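import Mathlib
import Pool.Agent.TH407.MV.Defs
import Pool.Agent.TH407.AR.Restr
set_option autoImplicit false

/-!
# MV-14 (job 2709, helper407, MP_6cbfb8_an): the restricted estimate
-/

namespace Pool.Agent.TH921.MV

open MeasureTheory Set Complex
open scoped ENNReal NNReal Real ComplexConjugate
open Pool.Agent.TH407.AR hiding sq
open Pool.Agent.TH407.ARx (W W_swap interp meas_sq meas_ang)
open Pool.Agent.TH407.MV

theorem meas_ps (ε : ℝ) : Measurable (ps ε) := by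
  unfold ps
  fun_prop

theorem meas_gn (ε : ℝ) : Measurable (gn ε) := by
  unfold gn
  fun_prop

theorem meas_eta : Measurable Pool.Agent.TH407.MV.eta := by
  have h : Continuous Real.smoothTransition := Real.smoothTransition.continuous
  unfold Pool.Agent.TH407.MV.eta
  exact ((h.comp (by fun_prop)).mul (h.comp (by fun_prop))).measurable

theorem meas_pro (ε : ℝ) : Measurable (pro ε) := by
  unfold pro
  refine Measurable.ite ?_ (meas_eta.comp ((meas_gn ε).comp meas_sq)) measurable_const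
  exact measurableSet_lt (meas_sq.const_mul _) measurable_const

theorem meas_fap (ε : ℝ) {a : ℝ → ℝ → ℂ} (ha : Measurable (Function.uncurry a)) :
    Measurable (fap ε a) := by
  have h1 : Measurable (fun x : ℝ × ℝ => a (ps ε (Pool.Agent.TH407.AR.sq x)) (ang x)) :=
    ha.comp (((meas_ps ε).comp meas_sq).prodMk meas_ang)
  unfold fap
  exact (Complex.measurable_ofReal.comp (meas_pro ε)).mul h1

theorem meas_EP (ε : ℝ) {f : ℝ × ℝ → ℂ} (hf : Measurable f) :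
    Measurable (fun ξ : (ℝ × ℝ) × ℝ => EP ε f ξ.1 ξ.2) := by
  have h : StronglyMeasurable (Function.uncurry (fun (ξ : (ℝ × ℝ) × ℝ) (x : ℝ × ℝ) =>
      cexp (-(I * ((x.1 * ξ.1.1 + x.2 * ξ.1.2 +
        ps ε (Pool.Agent.TH407.AR.sq x) * ξ.2 : ℝ) : ℂ))) * f x)) := by
    refine Measurable.stronglyMeasurable ?_
    refine Measurable.mul ?_ (hf.comp measurable_snd)
    have h2 : Measurable (fun p : ((ℝ × ℝ) × ℝ) × (ℝ × ℝ) =>
        ps ε (Pool.Agent.TH407.AR.sq p.2)) := (meas_ps ε).comp (meas_sq.comp measurable_snd)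
    have h3 : Measurable (fun p : ((ℝ × ℝ) × ℝ) × (ℝ × ℝ) =>
        (p.2.1 * p.1.1.1 + p.2.2 * p.1.1.2 + ps ε (Pool.Agent.TH407.AR.sq p.2) * p.1.2 : ℝ)) := by
      refine Measurable.add (by fun_prop) (h2.mul (by fun_prop))
    exact Complex.continuous_exp.measurable.comp
      ((measurable_const.mul (Complex.measurable_ofReal.comp h3)).neg)
  exact h.integral_prod_right.measurable

theorem meas_EPt (ε : ℝ) {f : ℝ × ℝ → ℂ} (hf : Measurable f) (t : ℝ) :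
    Measurable (fun X : ℝ × ℝ => EP ε f X t) := by
  have h1 : Measurable (fun X : ℝ × ℝ => (X, t)) := measurable_id.prodMk measurable_const
  have h2 := (meas_EP ε hf).comp h1
  exact h2

/-- the bounds of `FaP` for one `ε` -/
def FE (ε : ℝ) (C : ℝ≥0) : Prop :=
  ∀ b : ℝ → ℝ → ℂ, Measurable (Function.uncurry b) → W b ≠ ∞ →
    Integrable (fap ε b) ∧ MemLp (fap ε b) 2 ∧
    (∀ t, ∫⁻ X : ℝ × ℝ, ‖EP ε (fap ε b) X t‖ₑ ^ 2 ≤ C * W b) ∧
    (∀ X t, ‖EP ε (fap ε b) X t‖ₑ ^ 2 ≤ C * W b)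

/-- fixed time bound from `L²` and `L^∞` -/
theorem fixed (ε : ℝ) (C : ℝ≥0) (h3 : FE ε C) (q : ℝ) (hq : 2 ≤ q) {b : ℝ → ℝ → ℂ}
    (hb : Measurable (Function.uncurry b)) (hW : W b ≠ ∞) (t : ℝ) :
    ∫⁻ X : ℝ × ℝ, ‖EP ε (fap ε b) X t‖ₑ ^ q ≤
      ((C : ℝ≥0∞) ^ ((q - 2) / 2) * C) * (W b ^ ((q - 2) / 2) * W b) := by
  obtain ⟨_, _, h4, h5⟩ := h3 b hb hW
  have hCW : (C : ℝ≥0∞) * W b ≠ ∞ := ENNReal.mul_ne_top ENNReal.coe_ne_top hW
  have h6 : ∀ X, ‖EP ε (fap ε b) X t‖ₑ ^ q ≤ (C * W b) ^ ((q - 2) / 2) *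
      ‖EP ε (fap ε b) X t‖ₑ ^ 2 := by
    intro X
    have e : ‖EP ε (fap ε b) X t‖ₑ ^ q = (‖EP ε (fap ε b) X t‖ₑ ^ 2) ^ ((q - 2) / 2) *
        ‖EP ε (fap ε b) X t‖ₑ ^ 2 := by
      rw [← ENNReal.rpow_natCast, ← ENNReal.rpow_mul, ← ENNReal.rpow_add_of_nonneg _ _
        (by push_cast; linarith) (by norm_num)]
      congr 1
      push_cast
      ring
    rw [e]
    exact mul_le_mul' (ENNReal.rpow_le_rpow (h5 X t) (by linarith)) le_rfl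
  calc ∫⁻ X : ℝ × ℝ, ‖EP ε (fap ε b) X t‖ₑ ^ q
      ≤ ∫⁻ X : ℝ × ℝ, (C * W b) ^ ((q - 2) / 2) * ‖EP ε (fap ε b) X t‖ₑ ^ 2 := lintegral_mono h6
    _ = (C * W b) ^ ((q - 2) / 2) * ∫⁻ X : ℝ × ℝ, ‖EP ε (fap ε b) X t‖ₑ ^ 2 := by
        rw [lintegral_const_mul' _ _ (ENNReal.rpow_ne_top_of_nonneg (by linarith) hCW)]
    _ ≤ (C * W b) ^ ((q - 2) / 2) * (C * W b) := mul_le_mul' le_rfl (h4 t)
    _ = _ := by
        rw [ENNReal.mul_rpow_of_nonneg _ _ (by linarith)]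
        ring

theorem EP_add (ε : ℝ) {b c : ℝ → ℝ → ℂ} (hb : Integrable (fap ε b)) (hc : Integrable (fap ε c))
    (X : ℝ × ℝ) (t : ℝ) : EP ε (fap ε (fun s θ => b s θ + c s θ)) X t =
      EP ε (fap ε b) X t + EP ε (fap ε c) X t := by
  have hbd : ∀ f : ℝ × ℝ → ℂ, Integrable f → Integrable (fun x : ℝ × ℝ =>
      cexp (-(I * ((x.1 * X.1 + x.2 * X.2 + ps ε (Pool.Agent.TH407.AR.sq x) * t : ℝ) : ℂ))) * f x) := by
    intro f hf
    refine hf.bdd_mul (c := 1) ?_ (ae_of_all _ fun x => ?_)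
    · refine Measurable.aestronglyMeasurable ?_
      have h2 : Measurable (fun p : ℝ × ℝ =>
        ps ε (Pool.Agent.TH407.AR.sq p)) := (meas_ps ε).comp meas_sq
      have h3 : Measurable (fun p : ℝ × ℝ =>
          (p.1 * X.1 + p.2 * X.2 + ps ε (Pool.Agent.TH407.AR.sq p) * t : ℝ)) := by
        refine Measurable.add (by fun_prop) (h2.mul_const _)
      exact Complex.continuous_exp.measurable.comp
        ((measurable_const.mul (Complex.measurable_ofReal.comp h3)).neg)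
    · rw [Complex.norm_exp]
      simp
  unfold EP
  rw [← integral_add (hbd _ hb) (hbd _ hc)]
  refine integral_congr_ae (ae_of_all _ fun x => ?_)
  simp only [fap]
  ring

theorem exists_const (h1 : FourierFacts) (h2 : LowP) (A0 : ℝ) (Cf : ℝ≥0)
    (h3a : ∀ ε : ℝ, 0 ≤ ε → ε ≤ A0 → FE ε Cf) (q : ℝ) (hq : 3 < q)
    (hq4 : q ≤ 7 / 2) : ∃ K : ℝ≥0∞, K ≠ ∞ ∧ ∀ ε : ℝ, 0 ≤ ε → ε ≤ A0 →
      ∀ (a : ℝ → ℝ → ℂ) (M : ℝ → ℝ≥0) (B : ℝ≥0), Adm a M →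
      (∀ θ, M θ ≤ B) → ∀ t : ℝ, ∫⁻ X : ℝ × ℝ, ‖EP ε (fap ε a) X t‖ₑ ^ q ≤
        K * ENNReal.ofReal ((1 + ‖t‖) ^ (-(1 + (q - 3) / 2))) * ((B : ℝ≥0∞) ^ (q - 2) *
          ∫⁻ θ in Ioo (-π) π, (M θ : ℝ≥0∞) ^ 2) := by
  have hq2 : 0 < q - 2 := by linarith
  obtain ⟨C, hC0⟩ := h2 A0 ((q - 3) / (q - 2)) (div_pos (by linarith) hq2)
    (by rw [div_le_iff₀ hq2]; linarith)
  set γ : ℝ := 1 + (q - 3) / 2 with hγ
  -- constants
  set P : ℝ≥0∞ := ENNReal.ofReal (2 * π) ^ ((q - 2) / 2) with hP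
  have hPt : P ≠ ∞ := ENNReal.rpow_ne_top_of_nonneg (by linarith) ENNReal.ofReal_ne_top
  set A1 : ℝ≥0∞ := (Cf : ℝ≥0∞) ^ ((4 - q) / 2) * (C : ℝ≥0∞) ^ ((q - 2) / 2) with hA1
  have hA1t : A1 ≠ ∞ := ENNReal.mul_ne_top
    (ENNReal.rpow_ne_top_of_nonneg (by linarith) ENNReal.coe_ne_top)
    (ENNReal.rpow_ne_top_of_nonneg (by linarith) ENNReal.coe_ne_top)
  set D : ℝ≥0∞ := (Cf : ℝ≥0∞) ^ ((q - 2) / 2) * Cf with hD
  have hDt : D ≠ ∞ := ENNReal.mul_ne_top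
    (ENNReal.rpow_ne_top_of_nonneg (by linarith) ENNReal.coe_ne_top) ENNReal.coe_ne_top
  set A2 : ℝ≥0∞ := D * P * ENNReal.ofReal (6 ^ (q / 2)) with hA2
  have hA2t : A2 ≠ ∞ := ENNReal.mul_ne_top (ENNReal.mul_ne_top hDt hPt)
    ENNReal.ofReal_ne_top
  set K0 : ℝ≥0∞ := D * P + (2 : ℝ≥0∞) ^ (q - 1) * (A1 + A2) with hK0
  have h2t : (2 : ℝ≥0∞) ^ (q - 1) ≠ ∞ := ENNReal.rpow_ne_top_of_nonneg (by linarith) (by norm_num)
  refine ⟨K0 * ENNReal.ofReal (2 ^ γ), ?_, ?_⟩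
  · refine ENNReal.mul_ne_top (ENNReal.add_ne_top.mpr ⟨ENNReal.mul_ne_top hDt hPt,
      ENNReal.mul_ne_top h2t (ENNReal.add_ne_top.mpr ⟨hA1t, hA2t⟩)⟩) ENNReal.ofReal_ne_top
  intro ε hε0 hεA a M B ha hMB t
  have h3 := h3a ε hε0 hεA
  have hC := hC0 ε hε0 hεA
  set N : ℝ≥0∞ := ∫⁻ θ in Ioo (-π) π, (M θ : ℝ≥0∞) ^ 2 with hN
  have hNB : N ≤ ENNReal.ofReal (2 * π) * (B : ℝ≥0∞) ^ 2 := by
    calc N ≤ ∫⁻ θ in Ioo (-π) π, (B : ℝ≥0∞) ^ 2 := by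
          refine lintegral_mono fun θ => ?_
          exact pow_le_pow_left' (ENNReal.coe_le_coe.mpr (hMB θ)) 2
      _ = _ := by
          rw [setLIntegral_const, Real.volume_Ioo, mul_comm]
          congr 2
          ring
  have hNt : N ≠ ∞ := ne_top_of_le_ne_top (ENNReal.mul_ne_top ENNReal.ofReal_ne_top
    (ENNReal.pow_ne_top ENNReal.coe_ne_top)) hNB
  have hB2 : ((B : ℝ≥0∞) ^ 2) ^ ((q - 2) / 2) = (B : ℝ≥0∞) ^ (q - 2) := by
    rw [← ENNReal.rpow_natCast, ← ENNReal.rpow_mul]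
    congr 1
    push_cast
    ring
  have hNp : N ^ ((q - 2) / 2) ≤ P * (B : ℝ≥0∞) ^ (q - 2) := by
    calc N ^ ((q - 2) / 2) ≤ (ENNReal.ofReal (2 * π) * (B : ℝ≥0∞) ^ 2) ^ ((q - 2) / 2) :=
          ENNReal.rpow_le_rpow hNB (by linarith)
      _ = _ := by rw [ENNReal.mul_rpow_of_nonneg _ _ (by linarith), hB2]
  -- `L²` norm of `a`
  have hWa : W a ≤ N := by
    rw [W_swap ha.ma]
    refine lintegral_mono fun θ => ?_
    calc ∫⁻ s : ℝ, ‖a s θ‖ₑ ^ 2 ≤ ∫⁻ s : ℝ, (Icc (0 : ℝ) 1).indicator (fun _ => (M θ : ℝ≥0∞) ^ 2) s := by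
          refine lintegral_mono fun s => ?_
          by_cases hs : s ∈ Icc (0 : ℝ) 1
          · rw [indicator_of_mem hs]
            exact pow_le_pow_left' (ha.bd s θ) 2
          · rw [ha.supp s θ hs]
            simp
      _ = (M θ : ℝ≥0∞) ^ 2 := by
          rw [lintegral_indicator measurableSet_Icc, setLIntegral_const, Real.volume_Icc]
          simp
  have hwt : ∀ x : ℝ, 0 ≤ x → (x < 1 → 1 ≤ ENNReal.ofReal (2 ^ γ) * ENNReal.ofReal ((1 + x) ^ (-γ))) ∧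
      (1 ≤ x → ENNReal.ofReal (x ^ (-γ)) ≤ ENNReal.ofReal (2 ^ γ) * ENNReal.ofReal ((1 + x) ^ (-γ))) := by
    intro x hx
    have hγ0 : 0 < γ := by rw [hγ]; linarith
    constructor
    · intro hx1
      rw [← ENNReal.ofReal_mul (by positivity), ← ENNReal.ofReal_one]
      apply ENNReal.ofReal_le_ofReal
      rw [Real.rpow_neg (by linarith), ← div_eq_mul_inv, one_le_div (by positivity)]
      exact Real.rpow_le_rpow (by linarith) (by linarith) hγ0.le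
    · intro hx1
      rw [← ENNReal.ofReal_mul (by positivity)]
      apply ENNReal.ofReal_le_ofReal
      rw [Real.rpow_neg hx, Real.rpow_neg (by linarith), ← div_eq_mul_inv, ← one_div,
        div_le_div_iff₀ (by positivity) (by positivity), one_mul, ← Real.mul_rpow two_pos.le hx]
      exact Real.rpow_le_rpow (by linarith) (by linarith) hγ0.le
  rcases lt_or_ge ‖t‖ 1 with ht | ht
  · -- small times
    have h4 := fixed ε Cf h3 q (by linarith) ha.ma (ne_top_of_le_ne_top hNt hWa) t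
    calc ∫⁻ X : ℝ × ℝ, ‖EP ε (fap ε a) X t‖ₑ ^ q
        ≤ D * (W a ^ ((q - 2) / 2) * W a) := h4
      _ ≤ D * (P * (B : ℝ≥0∞) ^ (q - 2) * N) := by
          exact mul_le_mul' le_rfl (mul_le_mul'
            ((ENNReal.rpow_le_rpow hWa (by linarith)).trans hNp) hWa)
      _ = (D * P) * 1 * ((B : ℝ≥0∞) ^ (q - 2) * N) := by ring
      _ ≤ K0 * (ENNReal.ofReal (2 ^ γ) * ENNReal.ofReal ((1 + ‖t‖) ^ (-γ))) *
            ((B : ℝ≥0∞) ^ (q - 2) * N) := by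
          exact mul_le_mul' (mul_le_mul' le_self_add ((hwt ‖t‖ (norm_nonneg t)).1 ht)) le_rfl
      _ = _ := by ring
  · -- large times
    have ht0 : 0 < ‖t‖ := by linarith
    obtain ⟨_, _, hT⟩ := h1 a M ha
    obtain ⟨f1, f2, f3⟩ := hT ‖t‖ ht0
    set b1 := aT a ‖t‖ with hb1
    set b2 : ℝ → ℝ → ℂ := fun s θ => a s θ - b1 s θ with hb2
    have hb2m : Measurable (Function.uncurry b2) := ha.ma.sub f1
    have hW1 : W b1 ≤ N := by
      rw [W_swap f1]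
      exact lintegral_mono fun θ => f2 θ
    have hW2 : W b2 ≤ N * ENNReal.ofReal (6 / ‖t‖) := by
      rw [W_swap hb2m, hN, ← lintegral_mul_const' _ _ ENNReal.ofReal_ne_top]
      exact lintegral_mono fun θ => f3 θ
    have hW1t : W b1 ≠ ∞ := ne_top_of_le_ne_top hNt hW1
    have hW2t : W b2 ≠ ∞ := ne_top_of_le_ne_top (ENNReal.mul_ne_top hNt ENNReal.ofReal_ne_top) hW2
    have g1 := h3 b1 f1 hW1t
    have g2 := h3 b2 hb2m hW2t
    have hadd : ∀ X, EP ε (fap ε a) X t = EP ε (fap ε b1) X t + EP ε (fap ε b2) X t := by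
      intro X
      rw [← EP_add ε g1.1 g2.1]
      congr 2
      funext s θ
      simp only [hb2]
      ring
    -- first part
    have i1 : ∫⁻ X : ℝ × ℝ, ‖EP ε (fap ε b1) X t‖ₑ ^ q ≤
        A1 * ENNReal.ofReal (‖t‖ ^ (-γ)) * ((B : ℝ≥0∞) ^ (q - 2) * N) := by
      have h4 := hC a M B ha hMB ‖t‖ ht t (le_of_eq (Real.norm_eq_abs t))
      have hNN : N = N ^ ((4 - q) / 2) * N ^ ((q - 2) / 2) := by
        rw [← ENNReal.rpow_add_of_nonneg _ _ (by linarith) (by linarith)]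
        rw [show (4 - q) / 2 + (q - 2) / 2 = 1 by ring, ENNReal.rpow_one]
      have hTp : ENNReal.ofReal (‖t‖ ^ (-2 + (q - 3) / (q - 2))) ^ ((q - 2) / 2) =
          ENNReal.ofReal (‖t‖ ^ (-γ)) := by
        rw [ENNReal.ofReal_rpow_of_pos (by positivity), ← Real.rpow_mul ht0.le]
        congr 2
        rw [hγ]
        field_simp
        ring
      calc ∫⁻ X : ℝ × ℝ, ‖EP ε (fap ε b1) X t‖ₑ ^ q
          ≤ (∫⁻ X, ‖EP ε (fap ε b1) X t‖ₑ ^ 2) ^ ((4 - q) / 2) *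
              (∫⁻ X, ‖EP ε (fap ε b1) X t‖ₑ ^ 4) ^ ((q - 2) / 2) :=
            interp q (by linarith) (by linarith) _ (meas_EPt ε (meas_fap ε f1) t)
        _ ≤ ((Cf : ℝ≥0∞) * N) ^ ((4 - q) / 2) *
              (C * ENNReal.ofReal (‖t‖ ^ (-2 + (q - 3) / (q - 2))) * B ^ 2 * N) ^ ((q - 2) / 2) := by
            apply mul_le_mul'
            · exact ENNReal.rpow_le_rpow ((g1.2.2.1 t).trans (mul_le_mul' le_rfl hW1)) (by linarith)
            · exact ENNReal.rpow_le_rpow h4 (by linarith)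
        _ = A1 * ENNReal.ofReal (‖t‖ ^ (-γ)) * ((B : ℝ≥0∞) ^ (q - 2) *
              (N ^ ((4 - q) / 2) * N ^ ((q - 2) / 2))) := by
            rw [ENNReal.mul_rpow_of_nonneg _ _ (by linarith), ENNReal.mul_rpow_of_nonneg _ _ (by linarith),
              ENNReal.mul_rpow_of_nonneg _ _ (by linarith), ENNReal.mul_rpow_of_nonneg _ _ (by linarith),
              hTp, hB2, hA1]
            ring
        _ = _ := by rw [← hNN]
    -- second part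
    have i2 : ∫⁻ X : ℝ × ℝ, ‖EP ε (fap ε b2) X t‖ₑ ^ q ≤
        A2 * ENNReal.ofReal (‖t‖ ^ (-γ)) * ((B : ℝ≥0∞) ^ (q - 2) * N) := by
      have h4 := fixed ε Cf h3 q (by linarith) hb2m hW2t t
      have h5 : ENNReal.ofReal (6 / ‖t‖) ^ ((q - 2) / 2) * ENNReal.ofReal (6 / ‖t‖) ≤
          ENNReal.ofReal (6 ^ (q / 2)) * ENNReal.ofReal (‖t‖ ^ (-γ)) := by
        have h6 : (0 : ℝ) < 6 / ‖t‖ := by positivity
        rw [ENNReal.ofReal_rpow_of_pos h6, ← ENNReal.ofReal_mul (by positivity),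
          ← ENNReal.ofReal_mul (by positivity)]
        apply ENNReal.ofReal_le_ofReal
        have h7 : (6 / ‖t‖) ^ ((q - 2) / 2) * (6 / ‖t‖) = (6 / ‖t‖) ^ (q / 2) := by
          nth_rw 2 [← Real.rpow_one (6 / ‖t‖)]
          rw [← Real.rpow_add h6]
          congr 1
          ring
        rw [h7, Real.div_rpow (by norm_num) ht0.le, div_eq_mul_inv, ← Real.rpow_neg ht0.le]
        refine mul_le_mul_of_nonneg_left (Real.rpow_le_rpow_of_exponent_le ht ?_) (by positivity)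
        rw [hγ]; linarith
      calc ∫⁻ X : ℝ × ℝ, ‖EP ε (fap ε b2) X t‖ₑ ^ q
          ≤ D * (W b2 ^ ((q - 2) / 2) * W b2) := h4
        _ ≤ D * ((N * ENNReal.ofReal (6 / ‖t‖)) ^ ((q - 2) / 2) *
              (N * ENNReal.ofReal (6 / ‖t‖))) := by
            exact mul_le_mul' le_rfl (mul_le_mul' (ENNReal.rpow_le_rpow hW2 (by linarith)) hW2)
        _ = D * (N ^ ((q - 2) / 2) * N) *
              (ENNReal.ofReal (6 / ‖t‖) ^ ((q - 2) / 2) * ENNReal.ofReal (6 / ‖t‖)) := by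
            rw [ENNReal.mul_rpow_of_nonneg _ _ (by linarith)]
            ring
        _ ≤ D * (P * (B : ℝ≥0∞) ^ (q - 2) * N) *
              (ENNReal.ofReal (6 ^ (q / 2)) * ENNReal.ofReal (‖t‖ ^ (-γ))) := by
            exact mul_le_mul' (mul_le_mul' le_rfl (mul_le_mul' hNp le_rfl)) h5
        _ = _ := by rw [hA2]; ring
    calc ∫⁻ X : ℝ × ℝ, ‖EP ε (fap ε a) X t‖ₑ ^ q
        ≤ ∫⁻ X : ℝ × ℝ, (2 : ℝ≥0∞) ^ (q - 1) * (‖EP ε (fap ε b1) X t‖ₑ ^ q + ‖EP ε (fap ε b2) X t‖ₑ ^ q) := by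
          refine lintegral_mono fun X => ?_
          rw [hadd X]
          exact (ENNReal.rpow_le_rpow (enorm_add_le _ _) (by linarith)).trans
            (ENNReal.rpow_add_le_mul_rpow_add_rpow _ _ (by linarith))
      _ = (2 : ℝ≥0∞) ^ (q - 1) * ((∫⁻ X : ℝ × ℝ, ‖EP ε (fap ε b1) X t‖ₑ ^ q) +
            ∫⁻ X : ℝ × ℝ, ‖EP ε (fap ε b2) X t‖ₑ ^ q) := by
          rw [lintegral_const_mul' _ _ h2t, lintegral_add_left]
          exact (meas_EPt ε (meas_fap ε f1) t).enorm.pow_const q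
      _ ≤ (2 : ℝ≥0∞) ^ (q - 1) * (A1 * ENNReal.ofReal (‖t‖ ^ (-γ)) * ((B : ℝ≥0∞) ^ (q - 2) * N) +
            A2 * ENNReal.ofReal (‖t‖ ^ (-γ)) * ((B : ℝ≥0∞) ^ (q - 2) * N)) := by
          exact mul_le_mul' le_rfl (add_le_add i1 i2)
      _ = ((2 : ℝ≥0∞) ^ (q - 1) * (A1 + A2)) * ENNReal.ofReal (‖t‖ ^ (-γ)) *
            ((B : ℝ≥0∞) ^ (q - 2) * N) := by ring
      _ ≤ K0 * (ENNReal.ofReal (2 ^ γ) * ENNReal.ofReal ((1 + ‖t‖) ^ (-γ))) *
            ((B : ℝ≥0∞) ^ (q - 2) * N) := by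
          exact mul_le_mul' (mul_le_mul' le_add_self ((hwt ‖t‖ (norm_nonneg t)).2 ht)) le_rfl
      _ = _ := by ring

theorem restrP_of (hG : Pool.Agent.TH407.AR.FourierFacts) (h13 : LowP) (h11 : FaP) : RestrP := by
  intro A0 q hq
  obtain ⟨Cf, hCf⟩ := h11 A0
  have h3a : ∀ ε : ℝ, 0 ≤ ε → ε ≤ A0 → FE ε Cf := fun ε hε0 hεA b hb hW => hCf ε hε0 hεA b hb hW
  set r : ℝ := min q (7 / 2) with hr
  have hr3 : 3 < r := lt_min hq (by norm_num)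
  have hrq : r ≤ q := min_le_left _ _
  obtain ⟨K, hK, hb⟩ := exists_const hG h13 A0 Cf h3a r hr3 (min_le_right _ _)
  set J : ℝ≥0∞ := ∫⁻ t : ℝ, ENNReal.ofReal ((1 + ‖t‖) ^ (-(1 + (r - 3) / 2))) with hJ
  have hJt : J ≠ ∞ := by
    refine (finite_integral_one_add_norm ?_).ne
    simp only [Module.finrank_self, Nat.cast_one]
    linarith
  set P : ℝ≥0∞ := ((Cf : ℝ≥0∞) * ENNReal.ofReal (2 * π)) ^ ((q - r) / 2) with hP
  have hPt : P ≠ ∞ := ENNReal.rpow_ne_top_of_nonneg (by linarith)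
    (ENNReal.mul_ne_top ENNReal.coe_ne_top ENNReal.ofReal_ne_top)
  refine ⟨(P * K * J).toNNReal, ?_⟩
  intro ε hε0 hεA a M B ha hMB
  have h3 := h3a ε hε0 hεA
  rw [ENNReal.coe_toNNReal (ENNReal.mul_ne_top (ENNReal.mul_ne_top hPt hK) hJt)]
  set N : ℝ≥0∞ := ∫⁻ θ in Ioo (-π) π, (M θ : ℝ≥0∞) ^ 2 with hN
  have hNB : N ≤ ENNReal.ofReal (2 * π) * (B : ℝ≥0∞) ^ 2 := by
    calc N ≤ ∫⁻ θ in Ioo (-π) π, (B : ℝ≥0∞) ^ 2 := by
          refine lintegral_mono fun θ => ?_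
          exact pow_le_pow_left' (ENNReal.coe_le_coe.mpr (hMB θ)) 2
      _ = _ := by
          rw [setLIntegral_const, Real.volume_Ioo, mul_comm]
          congr 2
          ring
  have hNt : N ≠ ∞ := ne_top_of_le_ne_top (ENNReal.mul_ne_top ENNReal.ofReal_ne_top
    (ENNReal.pow_ne_top ENNReal.coe_ne_top)) hNB
  have hWa : W a ≤ N := by
    rw [W_swap ha.ma]
    refine lintegral_mono fun θ => ?_
    calc ∫⁻ s : ℝ, ‖a s θ‖ₑ ^ 2 ≤ ∫⁻ s : ℝ, (Icc (0 : ℝ) 1).indicator (fun _ => (M θ : ℝ≥0∞) ^ 2) s := by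
          refine lintegral_mono fun s => ?_
          by_cases hs : s ∈ Icc (0 : ℝ) 1
          · rw [indicator_of_mem hs]
            exact pow_le_pow_left' (ha.bd s θ) 2
          · rw [ha.supp s θ hs]
            simp
      _ = (M θ : ℝ≥0∞) ^ 2 := by
          rw [lintegral_indicator measurableSet_Icc, setLIntegral_const, Real.volume_Icc]
          simp
  obtain ⟨_, _, _, h5⟩ := h3 a ha.ma (ne_top_of_le_ne_top hNt hWa)
  have hpt : ∀ ξ : (ℝ × ℝ) × ℝ, ‖EP ε (fap ε a) ξ.1 ξ.2‖ₑ ^ q ≤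
      (P * (B : ℝ≥0∞) ^ (q - r)) * ‖EP ε (fap ε a) ξ.1 ξ.2‖ₑ ^ r := by
    intro ξ
    have e : ‖EP ε (fap ε a) ξ.1 ξ.2‖ₑ ^ q =
        (‖EP ε (fap ε a) ξ.1 ξ.2‖ₑ ^ 2) ^ ((q - r) / 2) * ‖EP ε (fap ε a) ξ.1 ξ.2‖ₑ ^ r := by
      rw [← ENNReal.rpow_natCast, ← ENNReal.rpow_mul, ← ENNReal.rpow_add_of_nonneg _ _
        (by push_cast; linarith) (by linarith)]
      congr 1
      push_cast
      ring
    rw [e]
    refine mul_le_mul' ?_ le_rfl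
    calc (‖EP ε (fap ε a) ξ.1 ξ.2‖ₑ ^ 2) ^ ((q - r) / 2) ≤
          (((Cf : ℝ≥0∞) * ENNReal.ofReal (2 * π)) * (B : ℝ≥0∞) ^ 2) ^ ((q - r) / 2) := by
          refine ENNReal.rpow_le_rpow ((h5 ξ.1 ξ.2).trans ?_) (by linarith)
          rw [mul_assoc]
          exact mul_le_mul' le_rfl (hWa.trans hNB)
      _ = P * (B : ℝ≥0∞) ^ (q - r) := by
          rw [ENNReal.mul_rpow_of_nonneg _ _ (by linarith), ← ENNReal.rpow_natCast (B : ℝ≥0∞) 2,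
            ← ENNReal.rpow_mul]
          congr 2
          push_cast
          ring
  have hPB : P * (B : ℝ≥0∞) ^ (q - r) ≠ ∞ :=
    ENNReal.mul_ne_top hPt (ENNReal.rpow_ne_top_of_nonneg (by linarith) ENNReal.coe_ne_top)
  have hmE : Measurable (fun ξ : (ℝ × ℝ) × ℝ => ‖EP ε (fap ε a) ξ.1 ξ.2‖ₑ ^ r) :=
    (meas_EP ε (meas_fap ε ha.ma)).enorm.pow_const r
  have hBr : (B : ℝ≥0∞) ^ (q - r) * (B : ℝ≥0∞) ^ (r - 2) = (B : ℝ≥0∞) ^ (q - 2) := by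
    rw [← ENNReal.rpow_add_of_nonneg _ _ (by linarith) (by linarith)]
    congr 1
    ring
  have hfinB : (B : ℝ≥0∞) ^ (r - 2) * N ≠ ∞ :=
    ENNReal.mul_ne_top (ENNReal.rpow_ne_top_of_nonneg (by linarith) ENNReal.coe_ne_top) hNt
  calc ∫⁻ ξ : (ℝ × ℝ) × ℝ, ‖EP ε (fap ε a) ξ.1 ξ.2‖ₑ ^ q
      ≤ ∫⁻ ξ : (ℝ × ℝ) × ℝ, (P * (B : ℝ≥0∞) ^ (q - r)) * ‖EP ε (fap ε a) ξ.1 ξ.2‖ₑ ^ r :=
        lintegral_mono hpt
    _ = (P * (B : ℝ≥0∞) ^ (q - r)) * ∫⁻ t : ℝ, ∫⁻ X : ℝ × ℝ, ‖EP ε (fap ε a) X t‖ₑ ^ r := by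
        rw [lintegral_const_mul' _ _ hPB, Measure.volume_eq_prod, lintegral_prod_symm _ hmE.aemeasurable]
    _ ≤ (P * (B : ℝ≥0∞) ^ (q - r)) * ∫⁻ t : ℝ,
          K * ENNReal.ofReal ((1 + ‖t‖) ^ (-(1 + (r - 3) / 2))) * ((B : ℝ≥0∞) ^ (r - 2) * N) :=
        mul_le_mul' le_rfl (lintegral_mono fun t => hb ε hε0 hεA a M B ha hMB t)
    _ = (P * (B : ℝ≥0∞) ^ (q - r)) * (K * J * ((B : ℝ≥0∞) ^ (r - 2) * N)) := by
        rw [lintegral_mul_const' _ _ hfinB, lintegral_const_mul' _ _ hK]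
    _ = P * K * J * ((B : ℝ≥0∞) ^ (q - r) * (B : ℝ≥0∞) ^ (r - 2)) * N := by ring
    _ = _ := by rw [hBr]

end Pool.Agent.TH921.MV
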